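import Pool.Agent.Lib.MP_172a45_an.F.AllN
import Pool.Agent.Lib.MP_172a45_an.F.Final

/-!
For every complex polynomial `P` of degree `n ≥ 2` with all zeros in the closed unit disc and every
zero `a` of `P` with `|a| < 1`, the sum of the reciprocal distances from `a` to the critical points
of `P` (with multiplicity, with `1/0 = ∞`) is greater than `n - 1`.
-/

namespace Pool.Agent.Results.MP_172a45_an.AllDegrees

open Polynomial

theorem result :
    ∀ P : ℂ[X], 2 ≤ P.natDegree → (∀ z ∈ P.roots, ‖z‖ ≤ 1) →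
      ∀ a ∈ P.roots, ‖a‖ < 1 →
        ((P.natDegree - 1 : ℕ) : ENNReal) <
          (P.derivative.roots.map fun z => (ENNReal.ofReal ‖a - z‖)⁻¹).sum := by
  intro P hn hroots a ha ha1
  have hN1 : 1 ≤ P.natDegree - 1 := by omega
  exact Pool.Agent.Lib.MP_172a45_an.F.Q1_of (P.natDegree - 1) hN1
    (fun a ζ z => Pool.Agent.Lib.MP_172a45_an.F.no_frame hN1 a ζ z) P (by omega) hroots a ha ha1

end Pool.Agent.Results.MP_172a45_an.AllDegrees
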