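import Pool.Agent.Lib.MP_172a45_an.H73.Basic

set_option autoImplicit false

open Polynomial

namespace Pool.Agent.Results.MP_172a45_an.SecondOrderBound

/-- If all zeros of `P` (degree `n ≥ 2`) lie in the closed unit disc and `P'(a) ≠ 0`, then the sum of
the reciprocal distances from `a` to the critical points of `P` is at least
`(n - 1) - Re (a P''(a) / P'(a))`. -/
theorem result (P : ℂ[X]) (hn : 2 ≤ P.natDegree) (hz : ∀ z : ℂ, P.IsRoot z → ‖z‖ ≤ 1) (a : ℂ)
    (ha : P.derivative.eval a ≠ 0) :
    ((P.natDegree : ℝ) - 1) - (a * (P.derivative.derivative.eval a / P.derivative.eval a)).re ≤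
      (P.derivative.roots.map fun ζ => 1 / ‖a - ζ‖).sum := by
  have h1 := Lib.MP_172a45_an.H73.sum_ineq (a := a) P.derivative.roots (fun ζ hζ =>
    ⟨Lib.MP_172a45_an.H73.critical_norm_le hn hz hζ, by
      rintro rfl
      exact ha (mem_roots'.1 hζ).2⟩)
  rw [← (IsAlgClosed.splits P.derivative).eval_derivative_div_eval_of_ne_zero ha,
    Lib.MP_172a45_an.H73.card_critical, Nat.cast_sub (by omega), Nat.cast_one] at h1
  exact h1

end Pool.Agent.Results.MP_172a45_an.SecondOrderBound
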